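import Pool.Agent.Y329.CG.Stm

/-!
Project CG, job CG-RC+B: one-sided local constancy of the cocycles; germs commute.
-/

set_option autoImplicit false

open Set Filter Topology MeasureTheory

namespace Pool.Agent.Y329.CG

theorem rc_cont {s : Fin 2 → Equiv.Perm ℝ} (h : Pair0 s) (W : F2) : StrictMono (rho s W) ∧ Continuous (rho s W) := by
  induction W using FreeGroup.induction_on with
  | C1 => simpa using ⟨strictMono_id, continuous_id⟩
  | of i => 
    rw [rho_of]
    exact ⟨h.mono i, (h.smooth i).continuous⟩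
  | inv_of i _ =>
    have e2 : rho s (FreeGroup.of i)⁻¹ = (s i).symm := by
      rw [map_inv]; simp [Equiv.Perm.inv_def]
    rw [e2]
    refine ⟨?_, (h.smooth_symm i).continuous⟩
    intro x y hxy
    by_contra hc
    push Not at hc
    have := (h.mono i).monotone hc
    simp at this
    linarith
  | mul a b ha hb =>
    rw [map_mul]
    exact ⟨fun x y hxy => ha.1 (hb.1 hxy), ha.2.comp hb.2⟩

theorem rc_tend_ge {s : Fin 2 → Equiv.Perm ℝ} (h : Pair0 s) (W : F2) (x : ℝ) :
    Tendsto (rho s W) (𝓝[≥] x) (𝓝[≥] (rho s W x)) := by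
  obtain ⟨h1, h2⟩ := rc_cont h W
  refine tendsto_nhdsWithin_iff.2 ⟨(h2.tendsto x).mono_left nhdsWithin_le_nhds, ?_⟩
  filter_upwards [self_mem_nhdsWithin] with y hy
  exact h1.monotone hy

theorem rc_tend_le {s : Fin 2 → Equiv.Perm ℝ} (h : Pair0 s) (W : F2) (x : ℝ) :
    Tendsto (rho s W) (𝓝[≤] x) (𝓝[≤] (rho s W x)) := by
  obtain ⟨h1, h2⟩ := rc_cont h W
  refine tendsto_nhdsWithin_iff.2 ⟨(h2.tendsto x).mono_left nhdsWithin_le_nhds, ?_⟩
  filter_upwards [self_mem_nhdsWithin] with y hy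
  exact h1.monotone hy

theorem rc_of_p (s : Fin 2 → Equiv.Perm ℝ) (i : Fin 2) (x : ℝ) :
    ∀ᶠ y in 𝓝[≥] x, coc s Dp (FreeGroup.of i) y = coc s Dp (FreeGroup.of i) x := by
  by_cases hx : x ∈ Dp i
  · have : ∀ᶠ y in 𝓝[≥] x, y ∈ Dp i := by
      have h1 : ∀ᶠ y in 𝓝[≥] x, y < hi i := nhdsWithin_le_nhds (Iio_mem_nhds hx.2)
      filter_upwards [h1, self_mem_nhdsWithin] with y hy hy2
      exact ⟨le_trans hx.1 hy2, hy⟩
    filter_upwards [this] with y hy
    rw [coc_of_mem _ _ hy, coc_of_mem _ _ hx]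
  · have : ∀ᶠ y in 𝓝[≥] x, y ∉ Dp i := by
      by_cases h1 : x < lo i
      · have h2 : ∀ᶠ y in 𝓝[≥] x, y < lo i := nhdsWithin_le_nhds (Iio_mem_nhds h1)
        filter_upwards [h2] with y hy h3
        exact absurd h3.1 (not_le.2 hy)
      · have h3 : hi i ≤ x := by
          by_contra h4
          exact hx ⟨not_lt.1 h1, not_le.1 h4⟩
        filter_upwards [self_mem_nhdsWithin] with y hy h4
        exact absurd h4.2 (not_lt.2 (le_trans h3 hy))
    filter_upwards [this] with y hy
    rw [coc_of_notMem _ _ hy, coc_of_notMem _ _ hx]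

theorem rc_of_m (s : Fin 2 → Equiv.Perm ℝ) (i : Fin 2) (x : ℝ) :
    ∀ᶠ y in 𝓝[≤] x, coc s Dm (FreeGroup.of i) y = coc s Dm (FreeGroup.of i) x := by
  by_cases hx : x ∈ Dm i
  · have : ∀ᶠ y in 𝓝[≤] x, y ∈ Dm i := by
      have h1 : ∀ᶠ y in 𝓝[≤] x, lo i < y := nhdsWithin_le_nhds (Ioi_mem_nhds hx.1)
      filter_upwards [h1, self_mem_nhdsWithin] with y hy hy2
      exact ⟨hy, le_trans hy2 hx.2⟩
    filter_upwards [this] with y hy
    rw [coc_of_mem _ _ hy, coc_of_mem _ _ hx]
  · have : ∀ᶠ y in 𝓝[≤] x, y ∉ Dm i := by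
      by_cases h1 : hi i < x
      · have h2 : ∀ᶠ y in 𝓝[≤] x, hi i < y := nhdsWithin_le_nhds (Ioi_mem_nhds h1)
        filter_upwards [h2] with y hy h3
        exact absurd h3.2 (not_le.2 hy)
      · have h3 : x ≤ lo i := by
          by_contra h4
          exact hx ⟨not_le.1 h4, not_lt.1 h1⟩
        filter_upwards [self_mem_nhdsWithin] with y hy h4
        exact absurd h4.1 (not_lt.2 (le_trans hy h3))
    filter_upwards [this] with y hy
    rw [coc_of_notMem _ _ hy, coc_of_notMem _ _ hx]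

theorem doneRC : S_RC := by
  intro s h W x
  constructor
  · induction W using FreeGroup.induction_on generalizing x with
    | C1 => simp
    | of i => exact rc_of_p s i x
    | inv_of i _ =>
      have h1 := (rc_tend_ge h (FreeGroup.of i)⁻¹ x).eventually
        (rc_of_p s i (rho s (FreeGroup.of i)⁻¹ x))
      filter_upwards [h1] with y hy
      rw [coc_inv, coc_inv, hy]
    | mul a b ha hb =>
      have h1 := (rc_tend_ge h b x).eventually (ha (rho s b x))
      filter_upwards [h1, hb x] with y hy hy2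
      rw [coc_mul, coc_mul, hy, hy2]
  · induction W using FreeGroup.induction_on generalizing x with
    | C1 => simp
    | of i => exact rc_of_m s i x
    | inv_of i _ =>
      have h1 := (rc_tend_le h (FreeGroup.of i)⁻¹ x).eventually
        (rc_of_m s i (rho s (FreeGroup.of i)⁻¹ x))
      filter_upwards [h1] with y hy
      rw [coc_inv, coc_inv, hy]
    | mul a b ha hb =>
      have h1 := (rc_tend_le h b x).eventually (ha (rho s b x))
      filter_upwards [h1, hb x] with y hy hy2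
      rw [coc_mul, coc_mul, hy, hy2]

theorem coc_comm_fix {X : Type} (s : Fin 2 → Equiv.Perm X) (D : Fin 2 → Set X) (W W' : F2) (x : X)
    (h1 : rho s W x = x) (h2 : rho s W' x = x)
    (h : coc s D W x * coc s D W' x = coc s D W' x * coc s D W x) :
    coc s D (W * W' * W⁻¹ * W'⁻¹) x = 1 := by
  have i1 : rho s W⁻¹ x = x := by
    conv_lhs => rw [← h1]
    exact rho_inv_apply s W x
  have i2 : rho s W'⁻¹ x = x := by
    conv_lhs => rw [← h2]
    exact rho_inv_apply s W' x
  rw [coc_mul, i2, coc_mul, i1, coc_mul, h2, coc_inv, i1, coc_inv, i2, h]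
  group

theorem doneB (hUC : S_UC) (hOK : S_OK) (hRC : S_RC) : S_B := by
  intro s h W W' x hW hW'
  obtain ⟨o1, o2, _⟩ := hOK s h.toPair0
  have e1 := coc_comm_fix s Dp W W' x hW hW' (hUC ℝ s Dp o1 h.genp x W W' hW hW')
  have e2 := coc_comm_fix s Dm W W' x hW hW' (hUC ℝ s Dm o2 h.genm x W W' hW hW')
  obtain ⟨r1, r2⟩ := hRC s h.toPair0 (W * W' * W⁻¹ * W'⁻¹) x
  rw [← nhdsLE_sup_nhdsGE, eventually_sup]
  constructor
  · filter_upwards [r2] with y hy
    rw [← o2.rho_coc, hy, e2]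
    simp
  · filter_upwards [r1] with y hy
    rw [← o1.rho_coc, hy, e1]
    simp

end Pool.Agent.Y329.CG
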