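import Pool.Agent.Y329.CG.Stm

/-!
Project CG, job CG-SM: the family of diffeomorphisms.
-/

set_option autoImplicit false

open Set Filter Topology MeasureTheory

namespace Pool.Agent.Y329.CG

namespace SM

theorem glue_le_one (x : ℝ) : expNegInvGlue x ≤ 1 := by
  unfold expNegInvGlue
  split_ifs with h
  · exact zero_le_one
  · push Not at h
    rw [Real.exp_le_one_iff]
    have := inv_pos.2 h
    linarith

theorem glue_an {x : ℝ} (hx : 0 < x) : AnalyticAt ℝ expNegInvGlue x := by
  have h1 : AnalyticAt ℝ (fun y : ℝ => Real.exp (-y⁻¹)) x :=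
    (analyticAt_inv hx.ne').neg.rexp
  refine h1.congr ?_
  filter_upwards [Ioi_mem_nhds hx] with y hy
  unfold expNegInvGlue
  rw [if_neg (not_le.2 hy)]

theorem bump_nonneg (i : Fin 2) (x : ℝ) : 0 ≤ bump i x :=
  mul_nonneg (expNegInvGlue.nonneg _) (expNegInvGlue.nonneg _)

theorem bump_le_one (i : Fin 2) (x : ℝ) : bump i x ≤ 1 :=
  mul_le_one₀ (glue_le_one _) (expNegInvGlue.nonneg _) (glue_le_one _)

theorem bump_pos {i : Fin 2} {x : ℝ} (hx : x ∈ Ioo (lo i) (hi i)) : 0 < bump i x :=
  mul_pos (expNegInvGlue.pos_of_pos (by linarith [hx.1])) (expNegInvGlue.pos_of_pos (by linarith [hx.2]))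

theorem bump_zero {i : Fin 2} {x : ℝ} (hx : x ∉ Ioo (lo i) (hi i)) : bump i x = 0 := by
  unfold bump
  by_cases h : lo i < x
  · have h2 : hi i ≤ x := by
      by_contra h3
      exact hx ⟨h, not_le.1 h3⟩
    rw [expNegInvGlue.zero_of_nonpos (by linarith : hi i - x ≤ 0), mul_zero]
  · rw [expNegInvGlue.zero_of_nonpos (by linarith [not_lt.1 h] : x - lo i ≤ 0), zero_mul]

theorem bump_smooth (i : Fin 2) : ContDiff ℝ 2 (bump i) := by
  unfold bump
  exact (expNegInvGlue.contDiff.comp (contDiff_id.sub contDiff_const)).mul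
    (expNegInvGlue.contDiff.comp (contDiff_const.sub contDiff_id))

theorem bump_an {i : Fin 2} {x : ℝ} (hx : x ∈ Ioo (lo i) (hi i)) : AnalyticAt ℝ (bump i) x := by
  unfold bump
  have h1 : AnalyticAt ℝ (fun y : ℝ => expNegInvGlue (y - lo i)) x :=
    AnalyticAt.fun_comp (g := expNegInvGlue) (f := fun y : ℝ => y - lo i) (glue_an (by linarith [hx.1]))
      (analyticAt_id.sub analyticAt_const)
  have h2 : AnalyticAt ℝ (fun y : ℝ => expNegInvGlue (hi i - y)) x :=
    AnalyticAt.fun_comp (g := expNegInvGlue) (f := fun y : ℝ => hi i - y) (glue_an (by linarith [hx.2]))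
      (analyticAt_const.sub analyticAt_id)
  exact h1.mul h2

theorem bump_deriv_cont (i : Fin 2) : Continuous (deriv (bump i)) :=
  (bump_smooth i).continuous_deriv (by norm_num)

theorem bump_deriv_zero {i : Fin 2} {x : ℝ} (hx : x ∉ Icc (lo i) (hi i)) : deriv (bump i) x = 0 := by
  have h1 : bump i =ᶠ[𝓝 x] fun _ => (0:ℝ) := by
    filter_upwards [isClosed_Icc.isOpen_compl.mem_nhds hx] with y hy
    exact bump_zero fun h => hy ⟨h.1.le, h.2.le⟩
  rw [h1.deriv_eq]
  simp

theorem bump_deriv_bound : ∃ B : ℝ, 0 ≤ B ∧ ∀ i x, |deriv (bump i) x| ≤ B := by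
  have h1 : ∀ i : Fin 2, ∃ B : ℝ, 0 ≤ B ∧ ∀ x, |deriv (bump i) x| ≤ B := by
    intro i
    obtain ⟨C, hC⟩ := (isCompact_Icc (a := lo i) (b := hi i)).exists_bound_of_continuousOn
      (bump_deriv_cont i).continuousOn
    refine ⟨max C 0, le_max_right _ _, fun x => ?_⟩
    by_cases hx : x ∈ Icc (lo i) (hi i)
    · exact le_trans (hC x hx) (le_max_left _ _)
    · rw [bump_deriv_zero hx, abs_zero]
      exact le_max_right _ _
  obtain ⟨B0, h00, h01⟩ := h1 0
  obtain ⟨B1, h10, h11⟩ := h1 1
  refine ⟨max B0 B1, le_trans h00 (le_max_left _ _), fun i x => ?_⟩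
  fin_cases i
  · exact le_trans (h01 x) (le_max_left _ _)
  · exact le_trans (h11 x) (le_max_right _ _)

theorem exp3 : Real.exp 3 ≤ 39 := by
  have h := Real.exp_one_lt_d9
  have e : Real.exp 3 = Real.exp 1 ^ 3 := by rw [← Real.exp_nat_mul]; norm_num
  rw [e]
  have h0 := Real.exp_pos 1
  calc Real.exp 1 ^ 3 ≤ (3:ℝ) ^ 3 := by gcongr; linarith
    _ ≤ 39 := by norm_num

theorem lo_ge (i : Fin 2) : 0 ≤ lo i := by unfold lo; positivity
theorem hi_le (i : Fin 2) : hi i ≤ 3 := by
  unfold hi
  fin_cases i <;> norm_num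

theorem exp_abs {i : Fin 2} {x : ℝ} (hx : x ∈ Icc (lo i) (hi i)) : Real.exp |x| ≤ 39 := by
  refine le_trans (Real.exp_le_exp.2 ?_) exp3
  rw [abs_of_nonneg (le_trans (lo_ge i) hx.1)]
  exact le_trans hx.2 (hi_le i)

end SM

open SM

theorem doneSM (h1 : S_PS1) (hPM : S_PM) : S_SM := by
  obtain ⟨B, hB0, hB⟩ := bump_deriv_bound
  set ε : ℝ := 1 / (100 * (79 * B + 118)) with hε
  have hden : 0 < 79 * B + 118 := by positivity
  have hε0 : 0 < ε := by positivity
  have hε1 : ε * (79 * B + 118) = 1 / 100 := by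
    rw [hε]; field_simp
  refine ⟨ε, hε0, ?_⟩
  -- one map
  have key : ∀ (i : Fin 2) (a : ℕ → ℝ), (∀ n, |a n| ≤ 1) → ∃ e : Equiv.Perm ℝ,
      (∀ x, e x = fam ε i a x) ∧ StrictMono e ∧ ContDiff ℝ 2 e ∧ ContDiff ℝ 2 e.symm ∧
      (∀ x, x ∉ Ioo (lo i) (hi i) → e x = x) ∧
      (∀ x, x ∈ Ioo (lo i) (hi i) → x < e x) ∧
      (∀ x, x ∈ Ioo (lo i) (hi i) → AnalyticAt ℝ e x) ∧
      (∀ x, x ∈ Ioo (lo i) (hi i) → AnalyticAt ℝ e.symm x) ∧
      (∀ x, e x ≤ x + 1 / 100) ∧ (∀ x, |deriv e x - 1| ≤ 1 / 100) := by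
    intro i a ha
    obtain ⟨pan, pb, pd⟩ := h1 a ha
    have pC : ContDiff ℝ 2 (PS a) := contDiff_iff_contDiffAt.2 fun x => (pan x).contDiffAt
    have bC := bump_smooth i
    have hP : ∀ x ∈ Icc (lo i) (hi i), |PS a x| ≤ 39 := fun x hx => le_trans (pb x) (exp_abs hx)
    have hD : ∀ x ∈ Icc (lo i) (hi i), |deriv (PS a) x| ≤ 39 := fun x hx => le_trans (pd x) (exp_abs hx)
    have fC : ContDiff ℝ 2 (fam ε i a) := by
      unfold fam
      exact contDiff_id.add (contDiff_const.mul (bC.mul (contDiff_const.add pC)))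
    have fd : ∀ x, deriv (fam ε i a) x = 1 + ε * (deriv (bump i) x * (40 + PS a x) +
        bump i x * deriv (PS a) x) := by
      intro x
      have hb : HasDerivAt (bump i) (deriv (bump i) x) x :=
        ((bC.differentiable (by norm_num)) x).hasDerivAt
      have hp : HasDerivAt (PS a) (deriv (PS a) x) x :=
        ((pC.differentiable (by norm_num)) x).hasDerivAt
      have := (hasDerivAt_id x).add ((hb.mul (hp.const_add 40)).const_mul ε)
      exact this.deriv
    have fder : ∀ x, |deriv (fam ε i a) x - 1| ≤ 1 / 100 := by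
      intro x
      rw [fd x, add_sub_cancel_left, abs_mul, abs_of_pos hε0, ← hε1]
      refine mul_le_mul_of_nonneg_left ?_ hε0.le
      by_cases hx : x ∈ Icc (lo i) (hi i)
      · have t1 : |deriv (bump i) x * (40 + PS a x)| ≤ B * 79 := by
          rw [abs_mul]
          refine mul_le_mul (hB i x) ?_ (abs_nonneg _) hB0
          have := abs_le.1 (hP x hx)
          rw [abs_le]; constructor <;> linarith
        have t2 : |bump i x * deriv (PS a) x| ≤ 39 := by
          rw [abs_mul, abs_of_nonneg (bump_nonneg i x)]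
          calc bump i x * |deriv (PS a) x| ≤ 1 * 39 :=
                mul_le_mul (bump_le_one i x) (hD x hx) (abs_nonneg _) zero_le_one
            _ = 39 := by norm_num
        refine le_trans (abs_add_le _ _) ?_
        linarith
      · rw [bump_deriv_zero hx, bump_zero fun h => hx ⟨h.1.le, h.2.le⟩]
        simp only [zero_mul, add_zero, abs_zero]
        exact hden.le
    obtain ⟨e, e1, e2, e3, e4⟩ := hPM (fam ε i a) fC fder
    have ee : (e : ℝ → ℝ) = fam ε i a := funext e1
    have eout : ∀ x, x ∉ Ioo (lo i) (hi i) → e x = x := by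
      intro x hx
      rw [e1]
      unfold fam
      rw [bump_zero hx]
      ring
    have fan : ∀ x, x ∈ Ioo (lo i) (hi i) → AnalyticAt ℝ (fam ε i a) x := by
      intro x hx
      unfold fam
      exact analyticAt_id.add (analyticAt_const.mul ((bump_an hx).mul (analyticAt_const.add (pan x))))
    refine ⟨e, e1, e2, ?_, e3, eout, ?_, ?_, ?_, ?_, ?_⟩
    · rw [ee]; exact fC
    · intro x hx
      rw [e1]
      unfold fam
      have h2 := abs_le.1 (hP x ⟨hx.1.le, hx.2.le⟩)
      have h3 : 0 < bump i x * (40 + PS a x) := mul_pos (bump_pos hx) (by linarith)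
      have h4 := mul_pos hε0 h3
      linarith
    · intro x hx
      rw [ee]; exact fan x hx
    · intro x hx
      obtain ⟨y, rfl⟩ := e.surjective x
      have hy : y ∈ Ioo (lo i) (hi i) := by
        by_contra hy
        rw [eout y hy] at hx
        exact hy hx
      have := e4 y (fan y hy)
      rw [← e1] at this
      exact this
    · intro x
      rw [e1]
      unfold fam
      by_cases hx : x ∈ Ioo (lo i) (hi i)
      · have h2 := abs_le.1 (hP x ⟨hx.1.le, hx.2.le⟩)
        have h3 : bump i x * (40 + PS a x) ≤ 1 * 79 :=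
          mul_le_mul (bump_le_one i x) (by linarith) (by linarith) zero_le_one
        have h4 : ε * (bump i x * (40 + PS a x)) ≤ ε * (79 * B + 118) := by
          refine mul_le_mul_of_nonneg_left ?_ hε0.le
          nlinarith
        linarith
      · rw [bump_zero hx]
        norm_num
    · intro x
      rw [ee]; exact fder x
  intro a b
  have hq : ∀ (c : Om) (n : ℕ), |sq c n| ≤ 1 := by
    intro c n
    exact abs_le.2 ⟨(c n).2.1, (c n).2.2⟩
  obtain ⟨p, p1, p2, p3, p4, p5, p6, p7, p8, p9, p10⟩ := key 0 (sq a) (hq a)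
  obtain ⟨q, q1, q2, q3, q4, q5, q6, q7, q8, q9, q10⟩ := key 1 (sq b) (hq b)
  refine ⟨![p, q], ?_, p1, q1⟩
  constructor
  · intro i; fin_cases i
    · exact p2
    · exact q2
  · intro i; fin_cases i
    · exact p3
    · exact q3
  · intro i; fin_cases i
    · exact p4
    · exact q4
  · intro i; fin_cases i
    · exact p5
    · exact q5
  · intro i; fin_cases i
    · exact p6
    · exact q6
  · intro i; fin_cases i
    · exact p7
    · exact q7
  · intro i; fin_cases i
    · exact p8
    · exact q8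
  · intro i; fin_cases i
    · exact p9
    · exact q9
  · intro i; fin_cases i
    · exact p10
    · exact q10

end Pool.Agent.Y329.CG
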